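import Pool.Agent.H32.Dense.EntX

/-!
# LEMMA Y, row ALV: path-alive rows

`V k` is a nested chain of contexts (for instance the contexts of an adapted path, radii random).
`VE p (V k) n m ω` is the entropy `H(n | m)` under the law given the realised value of `V k`.
It is a nonnegative supermartingale; so a row which is not full given the first context stays not
full given ALL contexts of the path with positive probability.
-/

set_option autoImplicit false

namespace Pool.KY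

open Finset Pool.Agent.H49.Ent Pool.Agent.H32.Dense

variable {Ω : Type*} [Fintype Ω] {S T σ τ : Type*}

open Classical in
/-- the expectation of `F` on the event `A` -/
noncomputable def EO (p : Ω → ℝ) (A : Ω → Prop) (F : Ω → ℝ) : ℝ :=
  ∑ ω, if A ω then p ω * F ω else 0

open Classical in
/-- the probability of the event `A` -/
noncomputable def PO (p : Ω → ℝ) (A : Ω → Prop) : ℝ := ∑ ω, if A ω then p ω else 0

theorem EO_eq (p : Ω → ℝ) (A : Ω → Prop) [DecidablePred A] (F : Ω → ℝ) :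
    EO p A F = ∑ ω with A ω, p ω * F ω := by
  unfold EO
  rw [Finset.sum_filter]
  refine Finset.sum_congr rfl fun ω _ => ?_
  by_cases h : A ω <;> simp [h]

theorem PO_eq (p : Ω → ℝ) (A : Ω → Prop) [DecidablePred A] :
    PO p A = ∑ ω with A ω, p ω := by
  unfold PO
  rw [Finset.sum_filter]
  refine Finset.sum_congr rfl fun ω _ => ?_
  by_cases h : A ω <;> simp [h]

theorem PO_nonneg {p : Ω → ℝ} (hp : ∀ ω, 0 ≤ p ω) (A : Ω → Prop) : 0 ≤ PO p A := by
  classical
  unfold PO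
  refine Finset.sum_nonneg fun ω _ => ?_
  split_ifs
  exacts [hp ω, le_rfl]

theorem EO_nonneg {p : Ω → ℝ} (hp : ∀ ω, 0 ≤ p ω) (A : Ω → Prop) {F : Ω → ℝ}
    (hF : ∀ ω, 0 ≤ F ω) : 0 ≤ EO p A F := by
  classical
  unfold EO
  refine Finset.sum_nonneg fun ω _ => ?_
  split_ifs
  exacts [mul_nonneg (hp ω) (hF ω), le_rfl]

theorem PO_mono {p : Ω → ℝ} (hp : ∀ ω, 0 ≤ p ω) {A B : Ω → Prop} (h : ∀ ω, 0 < p ω → A ω → B ω) :
    PO p A ≤ PO p B := by
  classical
  unfold PO
  refine Finset.sum_le_sum fun ω _ => ?_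
  rcases (hp ω).eq_or_lt with h0 | h0
  · rw [← h0]
    simp
  · by_cases hA : A ω
    · rw [if_pos hA, if_pos (h ω h0 hA)]
    · rw [if_neg hA]
      split_ifs
      exacts [hp ω, le_rfl]

theorem PO_congr {p : Ω → ℝ} {A B : Ω → Prop} (h : ∀ ω, A ω ↔ B ω) : PO p A = PO p B := by
  have : A = B := funext fun ω => propext (h ω)
  rw [this]

theorem EO_congr {p : Ω → ℝ} {A B : Ω → Prop} {F : Ω → ℝ} (h : ∀ ω, A ω ↔ B ω) :
    EO p A F = EO p B F := by
  have : A = B := funext fun ω => propext (h ω)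
  rw [this]

/-- splitting an event -/
theorem PO_split (p : Ω → ℝ) (A B : Ω → Prop) :
    PO p A = PO p (fun ω => A ω ∧ B ω) + PO p (fun ω => A ω ∧ ¬ B ω) := by
  classical
  unfold PO
  rw [← Finset.sum_add_distrib]
  refine Finset.sum_congr rfl fun ω _ => ?_
  by_cases hA : A ω <;> by_cases hB : B ω <;> simp [hA, hB]

theorem EO_const_le {p : Ω → ℝ} (hp : ∀ ω, 0 ≤ p ω) {A : Ω → Prop} {F : Ω → ℝ} {a : ℝ}
    (h : ∀ ω, 0 < p ω → A ω → F ω ≤ a) : EO p A F ≤ a * PO p A := by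
  classical
  unfold EO PO
  rw [Finset.mul_sum]
  refine Finset.sum_le_sum fun ω _ => ?_
  rcases (hp ω).eq_or_lt with h0 | h0
  · rw [← h0]
    simp
  · by_cases hA : A ω
    · rw [if_pos hA, if_pos hA, mul_comm a]
      exact mul_le_mul_of_nonneg_left (h ω h0 hA) h0.le
    · rw [if_neg hA, if_neg hA, mul_zero]

/-- `H(n | m)` under the law given the value of the context `V` at `ω` -/
noncomputable def VE (p : Ω → ℝ) (V : Ω → σ) (n : Ω → S) (m : Ω → T) (ω : Ω) : ℝ :=
  CH (cond p V (V ω)) n m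

theorem VE_nonneg {p : Ω → ℝ} (hp : ∀ ω, 0 ≤ p ω) (V : Ω → σ) (n : Ω → S) (m : Ω → T) (ω : Ω) :
    0 ≤ VE p V n m ω := CH_nonneg (cond_nonneg hp V _) n m

theorem VE_congr (p : Ω → ℝ) (V : Ω → σ) (n : Ω → S) (m : Ω → T) {ω ω' : Ω} (h : V ω = V ω') :
    VE p V n m ω = VE p V n m ω' := by
  unfold VE
  rw [h]

/-- the mean of the value of the entropy -/
theorem sum_VE {p : Ω → ℝ} (hp : ∀ ω, 0 ≤ p ω) (V : Ω → σ) (n : Ω → S) (m : Ω → T) :
    ∑ ω, p ω * VE p V n m ω = CH p n (fun ω => (m ω, V ω)) := by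
  classical
  have h1 := CH_eq_sum hp (fun ω => (n ω, m ω)) V
  have h2 := CH_eq_sum hp m V
  rw [← sum_mul_eq_sum_image p V (fun z => H (cond p V z) (fun ω => (n ω, m ω)))] at h1
  rw [← sum_mul_eq_sum_image p V (fun z => H (cond p V z) m)] at h2
  have h3 := CH_chain hp n m V
  have h4 : ∑ ω, p ω * VE p V n m ω = ∑ ω, p ω * H (cond p V (V ω)) (fun ω => (n ω, m ω)) -
      ∑ ω, p ω * H (cond p V (V ω)) m := by
    rw [← Finset.sum_sub_distrib]
    refine Finset.sum_congr rfl fun ω _ => ?_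
    unfold VE CH
    ring
  rw [h4, ← h1, ← h2]
  linarith

open Classical in
/-- the law restricted to an event -/
noncomputable def rs (p : Ω → ℝ) (A : Ω → Prop) (ω : Ω) : ℝ := if A ω then p ω else 0

omit [Fintype Ω] in
theorem rs_nonneg {p : Ω → ℝ} (hp : ∀ ω, 0 ≤ p ω) (A : Ω → Prop) (ω : Ω) : 0 ≤ rs p A ω := by
  unfold rs
  split_ifs
  exacts [hp ω, le_rfl]

omit [Fintype Ω] in
theorem rs_pos {p : Ω → ℝ} {A : Ω → Prop} {ω : Ω} (h : 0 < rs p A ω) : 0 < p ω ∧ A ω := by
  unfold rs at h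
  split_ifs at h with h1
  · exact ⟨h, h1⟩
  · exact absurd h (lt_irrefl _)

theorem cond_restrict {p : Ω → ℝ} (hp : ∀ ω, 0 ≤ p ω) (V : Ω → σ) (A : Ω → Prop)
    (hA : ∀ ω ω', 0 < p ω → 0 < p ω' → V ω = V ω' → A ω → A ω') {ω : Ω} (h0 : 0 < p ω)
    (h1 : A ω) : cond (rs p A) V (V ω) = cond p V (V ω) := by
  classical
  have key : ∀ ω', V ω' = V ω → rs p A ω' = p ω' := by
    intro ω' h
    unfold rs
    rcases (hp ω').eq_or_lt with h2 | h2
    · rw [← h2]
      split_ifs <;> rfl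
    · rw [if_pos (hA ω ω' h0 h2 h.symm h1)]
  have hl : law (rs p A) V (V ω) = law p V (V ω) := by
    unfold law
    refine Finset.sum_congr rfl fun ω' _ => ?_
    by_cases h : V ω' = V ω
    · rw [if_pos h, if_pos h]
      exact key ω' h
    · rw [if_neg h, if_neg h]
  funext ω'
  unfold Pool.Agent.H49.Ent.cond
  rw [hl]
  by_cases h : V ω' = V ω
  · rw [if_pos h, if_pos h, key ω' h]
  · rw [if_neg h, if_neg h]

theorem EO_VE {p : Ω → ℝ} (hp : ∀ ω, 0 ≤ p ω) (V : Ω → σ) (n : Ω → S) (m : Ω → T)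
    (A : Ω → Prop) (hA : ∀ ω ω', 0 < p ω → 0 < p ω' → V ω = V ω' → A ω → A ω') :
    EO p A (VE p V n m) = CH (rs p A) n (fun ω => (m ω, V ω)) := by
  classical
  rw [← sum_VE (rs_nonneg hp A)]
  unfold EO
  refine Finset.sum_congr rfl fun ω _ => ?_
  by_cases h : A ω
  · rw [if_pos h]
    rcases (hp ω).eq_or_lt with h2 | h2
    · unfold rs
      rw [← h2, zero_mul]
      simp
    · unfold VE
      rw [cond_restrict hp V A hA h2 h]
      unfold rs
      rw [if_pos h]
  · unfold rs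
    rw [if_neg h, if_neg h, zero_mul]

/-- the supermartingale property -/
theorem VE_super {p : Ω → ℝ} (hp : ∀ ω, 0 ≤ p ω) (V : Ω → σ) (C : Ω → τ) (hC : Det p C V)
    (n : Ω → S) (m : Ω → T) (A : Ω → Prop)
    (hA : ∀ ω ω', 0 < p ω → 0 < p ω' → V ω = V ω' → A ω → A ω') :
    EO p A (VE p C n m) ≤ EO p A (VE p V n m) := by
  rw [EO_VE hp V n m A hA,
    EO_VE hp C n m A (fun ω ω' h1 h2 h => hA ω ω' h1 h2 (hC ω ω' h1 h2 h))]
  refine CH_mono_cond (rs_nonneg hp A) ?_
  intro ω ω' h1 h2 h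
  have e := Prod.ext_iff.1 h
  exact Prod.ext e.1 (hC ω ω' (rs_pos h1).1 (rs_pos h2).1 e.2)

theorem EO_split_at {p : Ω → ℝ} (hp : ∀ ω, 0 ≤ p ω) (F : Ω → ℝ) (B : Ω → Prop) (lam : ℝ) :
    lam * PO p (fun ω => B ω ∧ lam < F ω) + EO p (fun ω => B ω ∧ F ω ≤ lam) F ≤ EO p B F := by
  classical
  unfold PO EO
  rw [Finset.mul_sum, ← Finset.sum_add_distrib]
  refine Finset.sum_le_sum fun ω _ => ?_
  by_cases hB : B ω
  · by_cases h : F ω ≤ lam
    · have : ¬ lam < F ω := not_lt.2 h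
      simp [hB, h, this]
    · have h' : lam < F ω := not_le.1 h
      have := mul_le_mul_of_nonneg_left h'.le (hp ω)
      simp only [hB, h, h', and_true, and_false, if_true, if_false, add_zero]
      linarith
  · simp [hB]

/-- maximal inequality for the values of the entropy along a nested chain of contexts -/
theorem VE_max {p : Ω → ℝ} (hp : ∀ ω, 0 ≤ p ω) {κ : ℕ → Type*} (N : ℕ) (V : ∀ k, Ω → κ k)
    (hV : ∀ k < N, Det p (V (k + 1)) (V k)) (n : Ω → S) (m : Ω → T) (A : Ω → Prop)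
    (hA : ∀ ω ω', 0 < p ω → 0 < p ω' → V 0 ω = V 0 ω' → A ω → A ω') (lam : ℝ) :
    lam * PO p (fun ω => A ω ∧ ∃ k ≤ N, lam < VE p (V k) n m ω) ≤ EO p A (VE p (V 0) n m) := by
  have hV' : ∀ i j, i ≤ j → j ≤ N → Det p (V j) (V i) := by
    intro i j hij
    induction j, hij using Nat.le_induction with
    | base => intro _ ω ω' _ _ h; exact h
    | succ j _ ih =>
      intro hj ω ω' h1 h2 h
      exact ih (by omega) ω ω' h1 h2 (hV j (by omega) ω ω' h1 h2 h)
  have key : ∀ k ≤ N, lam * PO p (fun ω => A ω ∧ ∃ j ≤ k, lam < VE p (V j) n m ω) +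
      EO p (fun ω => A ω ∧ ∀ j ≤ k, VE p (V j) n m ω ≤ lam) (VE p (V k) n m) ≤
      EO p A (VE p (V 0) n m) := by
    intro k
    induction k with
    | zero =>
      intro _
      have h := EO_split_at hp (VE p (V 0) n m) A lam
      have e1 : ∀ ω, (A ω ∧ ∃ j ≤ 0, lam < VE p (V j) n m ω) ↔
          (A ω ∧ lam < VE p (V 0) n m ω) := by
        intro ω
        constructor
        · rintro ⟨h1, j, hj, h2⟩
          obtain rfl : j = 0 := by omega
          exact ⟨h1, h2⟩
        · rintro ⟨h1, h2⟩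
          exact ⟨h1, 0, le_rfl, h2⟩
      have e2 : ∀ ω, (A ω ∧ ∀ j ≤ 0, VE p (V j) n m ω ≤ lam) ↔
          (A ω ∧ VE p (V 0) n m ω ≤ lam) := by
        intro ω
        constructor
        · rintro ⟨h1, h2⟩
          exact ⟨h1, h2 0 le_rfl⟩
        · rintro ⟨h1, h2⟩
          refine ⟨h1, fun j hj => ?_⟩
          obtain rfl : j = 0 := by omega
          exact h2
      rw [PO_congr e1, EO_congr e2]
      exact h
    | succ k ih =>
      intro hk
      have h0 := ih (by omega)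
      have h1 := VE_super hp (V k) (V (k + 1)) (hV k (by omega)) n m
        (fun ω => A ω ∧ ∀ j ≤ k, VE p (V j) n m ω ≤ lam) (by
          rintro ω ω' a b h ⟨h2, h3⟩
          refine ⟨hA ω ω' a b (hV' 0 k (by omega) (by omega) ω ω' a b h) h2, fun j hj => ?_⟩
          rw [← VE_congr p (V j) n m (hV' j k hj (by omega) ω ω' a b h)]
          exact h3 j hj)
      have h2 := EO_split_at hp (VE p (V (k + 1)) n m)
        (fun ω => A ω ∧ ∀ j ≤ k, VE p (V j) n m ω ≤ lam) lam
      have e2 : ∀ ω, (A ω ∧ ∀ j ≤ k + 1, VE p (V j) n m ω ≤ lam) ↔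
          ((A ω ∧ ∀ j ≤ k, VE p (V j) n m ω ≤ lam) ∧ VE p (V (k + 1)) n m ω ≤ lam) := by
        intro ω
        constructor
        · rintro ⟨h1, h2⟩
          exact ⟨⟨h1, fun j hj => h2 j (by omega)⟩, h2 (k + 1) le_rfl⟩
        · rintro ⟨⟨h1, h2⟩, h3⟩
          refine ⟨h1, fun j hj => ?_⟩
          rcases Nat.lt_or_ge j (k + 1) with h | h
          · exact h2 j (by omega)
          · obtain rfl : j = k + 1 := by omega
            exact h3
      have e1 : PO p (fun ω => A ω ∧ ∃ j ≤ k + 1, lam < VE p (V j) n m ω) =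
          PO p (fun ω => A ω ∧ ∃ j ≤ k, lam < VE p (V j) n m ω) +
          PO p (fun ω => (A ω ∧ ∀ j ≤ k, VE p (V j) n m ω ≤ lam) ∧
            lam < VE p (V (k + 1)) n m ω) := by
        rw [PO_split p (fun ω => A ω ∧ ∃ j ≤ k + 1, lam < VE p (V j) n m ω)
          (fun ω => ∃ j ≤ k, lam < VE p (V j) n m ω)]
        congr 1
        · refine PO_congr fun ω => ?_
          constructor
          · rintro ⟨⟨h1, _⟩, h3⟩
            exact ⟨h1, h3⟩
          · rintro ⟨h1, j, hj, h3⟩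
            exact ⟨⟨h1, j, by omega, h3⟩, j, hj, h3⟩
        · refine PO_congr fun ω => ?_
          constructor
          · rintro ⟨⟨h1, j, hj, h2⟩, h3⟩
            have h4 : ∀ j ≤ k, VE p (V j) n m ω ≤ lam := fun i hi => by
              by_contra h5
              exact h3 ⟨i, hi, not_le.1 h5⟩
            refine ⟨⟨h1, h4⟩, ?_⟩
            rcases Nat.lt_or_ge j (k + 1) with h | h
            · exact absurd h2 (not_lt.2 (h4 j (by omega)))
            · obtain rfl : j = k + 1 := by omega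
              exact h2
          · rintro ⟨⟨h1, h4⟩, h3⟩
            refine ⟨⟨h1, k + 1, le_rfl, h3⟩, ?_⟩
            rintro ⟨i, hi, h5⟩
            exact absurd h5 (not_lt.2 (h4 i hi))
      rw [e1, EO_congr e2, mul_add]
      linarith
  have h := key N le_rfl
  have h0 : 0 ≤ EO p (fun ω => A ω ∧ ∀ j ≤ N, VE p (V j) n m ω ≤ lam) (VE p (V N) n m) :=
    EO_nonneg hp _ fun ω => VE_nonneg hp _ n m ω
  linarith

/-- Row ALV, given the first context: on an event `A` of the first context on which the entropy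
is at most `(1 - c) U` it stays at most `(1 - c') U` along the whole path with conditional
probability at least `c - c'`. -/
theorem alv_on {p : Ω → ℝ} (hp : ∀ ω, 0 ≤ p ω) {κ : ℕ → Type*} (N : ℕ) (V : ∀ k, Ω → κ k)
    (hV : ∀ k < N, Det p (V (k + 1)) (V k)) (n : Ω → S) (m : Ω → T) (A : Ω → Prop)
    (hA : ∀ ω ω', 0 < p ω → 0 < p ω' → V 0 ω = V 0 ω' → A ω → A ω') {U c c' : ℝ} (hU : 0 < U)
    (h0 : 0 ≤ c') (hM : ∀ ω, 0 < p ω → A ω → VE p (V 0) n m ω ≤ (1 - c) * U) :
    (c - c') * PO p A ≤ PO p (fun ω => A ω ∧ ∀ k ≤ N, VE p (V k) n m ω ≤ (1 - c') * U) := by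
  have hm := VE_max hp N V hV n m A hA ((1 - c') * U)
  have hb := EO_const_le hp (A := A) (F := VE p (V 0) n m) hM
  have hs := PO_split p A (fun ω => ∀ k ≤ N, VE p (V k) n m ω ≤ (1 - c') * U)
  have he : PO p (fun ω => A ω ∧ ¬ ∀ k ≤ N, VE p (V k) n m ω ≤ (1 - c') * U) =
      PO p (fun ω => A ω ∧ ∃ k ≤ N, (1 - c') * U < VE p (V k) n m ω) := by
    refine PO_congr fun ω => ?_
    simp only [not_forall, not_le, exists_prop]
  rw [he] at hs
  set PA := PO p A with hPA
  set PG := PO p (fun ω => A ω ∧ ∀ k ≤ N, VE p (V k) n m ω ≤ (1 - c') * U) with hPG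
  set PB := PO p (fun ω => A ω ∧ ∃ k ≤ N, (1 - c') * U < VE p (V k) n m ω) with hPB
  have h3 : (1 - c') * PB ≤ (1 - c) * PA := by
    have : U * ((1 - c') * PB) ≤ U * ((1 - c) * PA) := by nlinarith [hm, hb]
    exact le_of_mul_le_mul_left this hU
  have h4 : (1 - c') * PG = (1 - c') * PA - (1 - c') * PB := by rw [hs]; ring
  have h5 : (c - c') * PA ≤ (1 - c') * PG := by rw [h4]; linarith
  have hPG0 : 0 ≤ PG := PO_nonneg hp _
  nlinarith [mul_nonneg h0 hPG0]

/-- Row ALV. If a row `n` is not full given (the coarser rows `m` and) the first context, then with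
probability at least `c (c - c')` it is not full given all the contexts of the path. -/
theorem alv {p : Ω → ℝ} (hp : ∀ ω, 0 ≤ p ω) (hp1 : ∑ ω, p ω = 1) {κ : ℕ → Type*} (N : ℕ)
    (V : ∀ k, Ω → κ k) (hV : ∀ k < N, Det p (V (k + 1)) (V k)) (n : Ω → S) (m : Ω → T)
    {U c c' : ℝ} (hU : 0 < U) (h0 : 0 ≤ c') (h1 : c' ≤ c)
    (hM : CH p n (fun ω => (m ω, V 0 ω)) ≤ (1 - 2 * c) * U) :
    c * (c - c') ≤ PO p (fun ω => ∀ k ≤ N, VE p (V k) n m ω ≤ (1 - c') * U) := by
  have hc : c ≤ 1 / 2 := by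
    have h2 := CH_nonneg hp n (fun ω => (m ω, V 0 ω))
    have h3 : 0 ≤ (1 - 2 * c) * U := h2.trans hM
    have h4 : 0 ≤ 1 - 2 * c := nonneg_of_mul_nonneg_left h3 hU
    linarith
  have hon := alv_on hp N V hV n m (fun ω => VE p (V 0) n m ω ≤ (1 - c) * U) (by
      intro ω ω' _ _ h h2
      show VE p (V 0) n m ω' ≤ (1 - c) * U
      rw [← VE_congr p (V 0) n m h]
      exact h2) hU h0 (fun ω _ h => h)
  have hA : c ≤ PO p (fun ω => VE p (V 0) n m ω ≤ (1 - c) * U) := by
    have h2 := EO_split_at hp (VE p (V 0) n m) (fun _ => True) ((1 - c) * U)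
    have h3 : EO p (fun _ => True) (VE p (V 0) n m) = CH p n (fun ω => (m ω, V 0 ω)) := by
      rw [← sum_VE hp]
      unfold EO
      simp
    rw [h3] at h2
    have h4 : 0 ≤ EO p (fun ω => True ∧ VE p (V 0) n m ω ≤ (1 - c) * U) (VE p (V 0) n m) :=
      EO_nonneg hp _ fun ω => VE_nonneg hp _ n m ω
    have h5 := PO_split p (fun _ => True) (fun ω => VE p (V 0) n m ω ≤ (1 - c) * U)
    have h51 : PO p (fun _ => True) = 1 := by
      unfold PO
      simp [hp1]
    have h52 : PO p (fun ω => True ∧ ¬ VE p (V 0) n m ω ≤ (1 - c) * U) =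
        PO p (fun ω => True ∧ (1 - c) * U < VE p (V 0) n m ω) :=
      PO_congr fun ω => by rw [not_le]
    have h53 : PO p (fun ω => True ∧ VE p (V 0) n m ω ≤ (1 - c) * U) =
        PO p (fun ω => VE p (V 0) n m ω ≤ (1 - c) * U) :=
      PO_congr fun ω => by rw [true_and]
    rw [h51, h52, h53] at h5
    set PG := PO p (fun ω => VE p (V 0) n m ω ≤ (1 - c) * U) with hPG
    set PB := PO p (fun ω => True ∧ (1 - c) * U < VE p (V 0) n m ω) with hPB
    have h6 : (1 - c) * PB ≤ 1 - 2 * c := by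
      have : U * ((1 - c) * PB) ≤ U * (1 - 2 * c) := by nlinarith
      exact le_of_mul_le_mul_left this hU
    have h7 : PB = 1 - PG := by linarith
    rw [h7] at h6
    have hPG0 : 0 ≤ PG := PO_nonneg hp _
    have hc0 : 0 ≤ c := h0.trans h1
    nlinarith
  have h6 : PO p (fun ω => VE p (V 0) n m ω ≤ (1 - c) * U ∧
      ∀ k ≤ N, VE p (V k) n m ω ≤ (1 - c') * U) ≤
      PO p (fun ω => ∀ k ≤ N, VE p (V k) n m ω ≤ (1 - c') * U) :=
    PO_mono hp fun ω _ h => h.2
  have h7 := mul_le_mul_of_nonneg_left hA (by linarith : 0 ≤ c - c')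
  linarith

open Classical in
/-- Density of the alive rows on an event of positive probability. -/
theorem alv_density {p : Ω → ℝ} (hp : ∀ ω, 0 ≤ p ω) (hp1 : ∑ ω, p ω = 1) {ι : Type*}
    (B : Finset ι) (al : ι → Ω → Prop) {c : ℝ} (hc : 0 ≤ c)
    (h : ∀ i ∈ B, c ≤ PO p (al i)) (hB : B.Nonempty) :
    c / 2 ≤ PO p (fun ω => c / 2 * B.card ≤ ((B.filter fun i => al i ω).card : ℝ)) := by
  have h1 : c * B.card ≤ ∑ ω, p ω * ((B.filter fun i => al i ω).card : ℝ) := by
    have e : ∑ ω, p ω * ((B.filter fun i => al i ω).card : ℝ) = ∑ i ∈ B, PO p (al i) := by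
      simp_rw [Finset.card_filter, Nat.cast_sum, Finset.mul_sum]
      rw [Finset.sum_comm]
      refine Finset.sum_congr rfl fun i _ => ?_
      unfold PO
      refine Finset.sum_congr rfl fun ω _ => ?_
      by_cases h : al i ω <;> simp [h]
    rw [e]
    calc c * B.card = ∑ _i ∈ B, c := by rw [Finset.sum_const, nsmul_eq_mul, mul_comm]
      _ ≤ _ := Finset.sum_le_sum h
  have h2 : ∀ ω, p ω * ((B.filter fun i => al i ω).card : ℝ) ≤
      p ω * (c / 2 * B.card) + (if c / 2 * B.card ≤ ((B.filter fun i => al i ω).card : ℝ)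
        then p ω else 0) * B.card := by
    intro ω
    have hcard : ((B.filter fun i => al i ω).card : ℝ) ≤ B.card := by
      exact_mod_cast Finset.card_filter_le _ _
    by_cases h3 : c / 2 * B.card ≤ ((B.filter fun i => al i ω).card : ℝ)
    · rw [if_pos h3]
      have h4 := mul_le_mul_of_nonneg_left hcard (hp ω)
      have h5 : 0 ≤ p ω * (c / 2 * B.card) := mul_nonneg (hp ω) (by positivity)
      linarith
    · rw [if_neg h3, zero_mul, add_zero]
      exact mul_le_mul_of_nonneg_left (not_le.1 h3).le (hp ω)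
  have h3 := Finset.sum_le_sum fun ω (_ : ω ∈ (univ : Finset Ω)) => h2 ω
  rw [Finset.sum_add_distrib, ← Finset.sum_mul, ← Finset.sum_mul, hp1, one_mul] at h3
  have hB0 : (0 : ℝ) < B.card := by exact_mod_cast hB.card_pos
  have e3 : PO p (fun ω => c / 2 * B.card ≤ ((B.filter fun i => al i ω).card : ℝ)) =
      ∑ ω, (if c / 2 * B.card ≤ ((B.filter fun i => al i ω).card : ℝ) then p ω else 0) := by
    unfold PO
    refine Finset.sum_congr rfl fun ω _ => ?_
    by_cases h : c / 2 * B.card ≤ ((B.filter fun i => al i ω).card : ℝ) <;> simp [h]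
  rw [← e3] at h3
  have h4 := h1.trans h3
  rw [← add_mul] at h4
  have h5 := le_of_mul_le_mul_right h4 hB0
  linarith

end Pool.KY
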